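import Pool.Agent.Helper63.PropB.Red.Final

/-!
Reduction of Lindenstrauss' question on finite dimensional range spaces to Euclidean spaces: if
`ℓ₂ⁿ` has property B (or any other space of dimension `n` whose norm is of class `C²` with positive
curvature near one point of its sphere), then every real normed space of dimension at most `n` has
property B. The reduction is made within the isomorphism class of the domain `X`.

Proof. Let `T : X → Y`, `dim Y = n`, and let `W` be the closure of the image of the unit ball.
(1) `A ↦ ‖A ∘ T‖` is a convex function on the space of the linear maps `A` of `Y`; by Aleksandrov's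
theorem (proved here through the resolvent map, Rademacher's theorem and Sard's lemma) its
subdifferential is differentiable at some `A` close to `1`, and we may suppose `A = 1`, `‖T‖ = 1`.
Let `y₀ ∈ W` and `e₀` be a contact, `e₀(y₀) = 1`.
(2) Comparing the maximizers for `A = 1 + e₀(.) m + l(π .) y₀` with different `m, l` shows that the
norm of `Y` has a second order expansion `1 + q(x) / 2 + o(x²)` on the hyperplane `e₀ = 1` at `y₀`
(`q` positive semidefinite), and that `W` lies strictly inside: `e₀(z) (‖z / e₀(z)‖ + c |x|²) ≤ 1`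
for the points `z` of `W` near `y₀`, `x` the tangential coordinate of `z / e₀(z)`, `c > 0`.
(3) So a suitable linear image of the unit ball of the model space `Z`, with a curved point placed
at `y₀`, fits between the unit ball of `Y` and `W` near `y₀`, in a stable way under small
rotations that bring nearby points of the sphere of `Z` to `y₀`.
(4) Renorm `X` by `max (‖x‖, ‖L (T x)‖)`, where `L : Y → Z` is the linear map of (3), add a small
multiple of `e₀(T x) y₀` to `T`, apply the hypothesis on `Z` to the resulting operator, and rotate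
the value at the attaining point to `y₀`: the result is an operator into `Y`, close to `T`, that
attains its norm. (5) Lower dimensions: add a summand with the maximum norm.
-/

namespace Pool.Agent.Results.MP_b9cb57_an.EuclideanReduction

open Pool.Agent.Helper63.PropB

universe u v w

/-- The point `p` of the unit sphere of `Z` is curved: the norm is of class `C²` near `p`, and its
second derivative at `p` is positive definite on the kernel of its first derivative. -/
def IsCurvedPoint {Z : Type w} [NormedAddCommGroup Z] [NormedSpace ℝ Z] (p : Z) : Prop :=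
  ‖p‖ = 1 ∧ ContDiffAt ℝ 2 (fun z : Z => ‖z‖) p ∧
    ∀ h : Z, fderiv ℝ (fun z : Z => ‖z‖) p h = 0 → h ≠ 0 →
      0 < fderiv ℝ (fderiv ℝ (fun z : Z => ‖z‖)) p h h

/-- For every real normed space isomorphic to `X`, the norm attaining operators into `Y` are
dense. -/
def DenseForClass (X : Type u) [NormedAddCommGroup X] [NormedSpace ℝ X] (Y : Type v)
    [NormedAddCommGroup Y] [NormedSpace ℝ Y] : Prop :=
  ∀ (X₁ : Type u) [NormedAddCommGroup X₁] [NormedSpace ℝ X₁], (X₁ ≃L[ℝ] X) →
    Dense {T : X₁ →L[ℝ] Y | NormAttaining T}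

theorem DenseForClass.of_curved {X : Type u} [NormedAddCommGroup X] [NormedSpace ℝ X]
    [Nontrivial X] {Z : Type w} [NormedAddCommGroup Z] [NormedSpace ℝ Z] [FiniteDimensional ℝ Z]
    {p : Z} (hp : IsCurvedPoint p) (hZ : DenseForClass X Z) {Y : Type v} [NormedAddCommGroup Y]
    [NormedSpace ℝ Y] [FiniteDimensional ℝ Y]
    (hdim : Module.finrank ℝ Y ≤ Module.finrank ℝ Z) : DenseForClass X Y := by
  intro X₁ _ _ e
  have : Nontrivial X₁ := e.toEquiv.nontrivial
  exact Red.dense_of_curved hp.1 hp.2.1 hp.2.2
    (fun X₂ _ _ e₂ => hZ X₂ (e₂.trans e)) hdim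

theorem DenseForClass.of_euclid {X : Type u} [NormedAddCommGroup X] [NormedSpace ℝ X]
    [Nontrivial X] {n : ℕ} (hZ : DenseForClass X (EuclideanSpace ℝ (Fin n))) {Y : Type v}
    [NormedAddCommGroup Y] [NormedSpace ℝ Y] [FiniteDimensional ℝ Y]
    (hdim : Module.finrank ℝ Y ≤ n) : DenseForClass X Y := by
  intro X₁ _ _ e
  have : Nontrivial X₁ := e.toEquiv.nontrivial
  exact Red.dense_of_euclid n (fun X₂ _ _ e₂ => hZ X₂ (e₂.trans e)) hdim

theorem propertyB_iff (Y : Type v) [NormedAddCommGroup Y] [NormedSpace ℝ Y] :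
    PropertyB.{u, v} Y ↔ ∀ (X : Type u) [NormedAddCommGroup X] [NormedSpace ℝ X]
      [CompleteSpace X] [Nontrivial X], DenseForClass X Y := by
  constructor
  · intro h X _ _ _ _ X₁ _ _ e
    have : Nontrivial X₁ := e.toEquiv.nontrivial
    have : CompleteSpace X₁ :=
      (completeSpace_congr (e := e.toEquiv) e.isUniformEmbedding).2 inferInstance
    exact h X₁
  · intro h X _ _ _ _
    exact h X X (ContinuousLinearEquiv.refl ℝ X)

theorem propertyB_of_euclid {n : ℕ} (hZ : PropertyB.{u, 0} (EuclideanSpace ℝ (Fin n)))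
    (Y : Type v) [NormedAddCommGroup Y] [NormedSpace ℝ Y] [FiniteDimensional ℝ Y]
    (hdim : Module.finrank ℝ Y ≤ n) : PropertyB.{u, v} Y := by
  rw [propertyB_iff] at hZ ⊢
  intro X _ _ _ _
  exact DenseForClass.of_euclid (hZ X) hdim

/-- Spaces with a curved point, in particular Euclidean spaces, are the worst ones for Lindenstrauss'
property B among the spaces of at most their dimension. -/
theorem result :
    -- within the isomorphism class of one space `X`
    (∀ (X : Type u) [NormedAddCommGroup X] [NormedSpace ℝ X] [Nontrivial X]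
      (Z : Type w) [NormedAddCommGroup Z] [NormedSpace ℝ Z] [FiniteDimensional ℝ Z] (p : Z),
      IsCurvedPoint p → DenseForClass X Z →
      ∀ (Y : Type v) [NormedAddCommGroup Y] [NormedSpace ℝ Y] [FiniteDimensional ℝ Y],
        Module.finrank ℝ Y ≤ Module.finrank ℝ Z → DenseForClass X Y) ∧
    -- for property B
    (∀ (Z : Type w) [NormedAddCommGroup Z] [NormedSpace ℝ Z] [FiniteDimensional ℝ Z] (p : Z),
      IsCurvedPoint p → PropertyB.{u, w} Z →
      ∀ (Y : Type v) [NormedAddCommGroup Y] [NormedSpace ℝ Y] [FiniteDimensional ℝ Y],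
        Module.finrank ℝ Y ≤ Module.finrank ℝ Z → PropertyB.{u, v} Y) ∧
    -- Euclidean spaces
    (∀ n : ℕ, PropertyB.{u, 0} (EuclideanSpace ℝ (Fin n)) →
      ∀ (Y : Type v) [NormedAddCommGroup Y] [NormedSpace ℝ Y] [FiniteDimensional ℝ Y],
        Module.finrank ℝ Y ≤ n → PropertyB.{u, v} Y) ∧
    (∀ n : ℕ, PropertyB.{u, 0} (EuclideanSpace ℝ (Fin n)) ↔
      ∀ (Y : Type) [NormedAddCommGroup Y] [NormedSpace ℝ Y] [FiniteDimensional ℝ Y],
        Module.finrank ℝ Y ≤ n → PropertyB.{u, 0} Y) ∧
    -- every unit vector of a Euclidean space is a curved point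
    (∀ (n : ℕ) (p : EuclideanSpace ℝ (Fin n)), ‖p‖ = 1 → IsCurvedPoint p) := by
  refine ⟨?_, ?_, ?_, ?_, ?_⟩
  · intro X _ _ _ Z _ _ _ p hp hZ Y _ _ _ hdim
    exact DenseForClass.of_curved hp hZ hdim
  · intro Z _ _ _ p hp hZ Y _ _ _ hdim
    rw [propertyB_iff] at hZ ⊢
    intro X _ _ _ _
    exact DenseForClass.of_curved hp (hZ X) hdim
  · intro n hZ Y _ _ _ hdim
    exact propertyB_of_euclid hZ Y hdim
  · intro n
    refine ⟨fun hZ Y _ _ _ hdim => propertyB_of_euclid hZ Y hdim, fun h => h _ ?_⟩
    rw [finrank_euclideanSpace, Fintype.card_fin]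
  · intro n p hp
    have hp0 : p ≠ 0 := by
      intro hcon
      rw [hcon, norm_zero] at hp
      exact zero_ne_one hp
    exact ⟨hp, contDiffAt_norm ℝ hp0, fun h hh h0 => Red.euclid_curvature hp hh h0⟩

end Pool.Agent.Results.MP_b9cb57_an.EuclideanReduction
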