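import Pool.Agent.Helper18.PB2.Crit

/-!
Lindenstrauss' property B for finite dimensional spaces whose unit sphere is flat of order `s > 2`
almost everywhere, in every dimension.

Let `n = dim Y`. If almost every point `p` of the unit sphere of `Y` (for the Hausdorff measure of
dimension `n - 1`) is flat of some order `s > 2`, i.e. a supporting hyperplane `p + ker w` satisfies
`‖p + h‖ ≤ 1 + C ‖h‖ ^ s` for `h ∈ ker w`, then `Y` has property B. (`s = 2` would be the general
case, in particular the Euclidean one, which is open.)

Proof. (E) For `T : X → Y` let `C` be the closure of the image of the unit ball. For many linear maps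
`A` near the identity the norm has a unique maximum (up to sign) on `A C` with a quadratic gap, and
the set of the directions of these maxima is not null, so that one may assume that the direction `p`
is flat. (A) With `f = w ∘ T` and the coordinates `g_k` of `T` in `ker w` (`k = 1, …, m`, `m = n - 1`)
one runs an iteration. At each stage `f (y - x) + θ ∑ |g_k (y - x)| ≤ e` on the unit ball. Let `h(τ)`
be the supremum over the ball of `(f + ∑ τ_k g_k)(y - x) - ρ ‖y - x‖`, for `τ` in a grid of step
`β = θ / (8 N)` in `[0, θ/4] ^ m`; then `0 ≤ h ≤ e`, and at the point of the grid where a paraboloid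
touches `h` from above all the second differences of `h` are at most `4 e / N²`. The Hahn–Banach
theorem (separation of the ball and the cone `ρ ‖y - x‖`) gives at this point and its `m` neighbours
functionals near `f + ∑ τ_k g_k`, nearly maximal at the same point `x'` of the ball, with
`‖x' - x‖ ≤ 2 e / ρ`; their mean and their differences are the new `f`, `g_k`. So one gains `1 / N²`
in `e` and loses `1 / N` in `θ`, in all directions at once: in the limit there are functionals `F`,
`G_k` near `f`, `g_k`, and a point `z` of the ball, with `F (y - z) + C (∑ |G_k (y - z)|) ^ s ≤ 0` on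
the unit ball near `z`; this and the flatness make `F p + ∑ G_k h_k` (corrected at `z`) norm
attaining.
-/

namespace Pool.Agent.Results.MP_b9cb57_an.FlatAboveTwo

open Pool.Agent.Helper63.PropB Pool.Agent.Helper18.PB MeasureTheory Measure

universe u v

/-- Flatness of some order greater than `2` at almost every point of the unit sphere implies property
B, in every dimension. -/
theorem result (Y : Type v) [NormedAddCommGroup Y] [NormedSpace ℝ Y] [FiniteDimensional ℝ Y]
    [MeasurableSpace Y] [BorelSpace Y]
    (h : μH[(Module.finrank ℝ Y : ℝ) - 1]
        {p : Y | ‖p‖ = 1 ∧ ¬ ∃ s : ℝ, 2 < s ∧ FlatPt s p} = 0) :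
    PropertyB.{u, v} Y :=
  Pool.Agent.Helper18.PB2.main12 Y h

end Pool.Agent.Results.MP_b9cb57_an.FlatAboveTwo
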