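import Pool.Agent.Helper18.PB2.Final

/-!
Smooth and strictly convex spaces with Lindenstrauss' property B are dense among the finite
dimensional spaces: every nonzero finite dimensional space `Y₀` is as close as one wants to a space
with property B which is strictly convex and smooth (its norm is differentiable at every nonzero
point).

Proof. Let `γ(t) = (t, t², …, t ^ n)`, `S_η(t) c = c + η ⟨γ(t), c⟩ γ(t)`, and let `μ` be a probability
measure without atoms on a compact null set. Let `max_i |⟨b_i, x⟩|` be a polyhedral norm close to the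
given one, `a_k` a dense sequence. The norm
`∫ (max_i |⟨S_η(t) b_i, x⟩| + ∑_k c_k |⟨S_{η_k}(t) a_k, x⟩|) dμ(t)`, with `η_k → 0` and rapidly
decreasing `c_k > 0`, is strictly convex, since some `a_k` separates two given directions; it is smooth,
since for `x ≠ 0`, `c ≠ 0` the function `t ↦ ⟨S_η(t) c, x⟩` is a nonzero polynomial and has only
finitely many zeros; and almost every point of its sphere is flat of every order, since the hyperplanes
orthogonal to `S_η(t) c`, `t` in the null set, cover a null set, and by the Borel–Cantelli lemma. So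
the criterion of `FlatAboveTwo` (property B if almost every point of the unit sphere is flat of some
order `s > 2`) applies.
-/

namespace Pool.Agent.Results.MP_b9cb57_an.SmoothConvexDense

open Pool.Agent.Helper63.PropB

universe u v

/-- Smooth and strictly convex spaces with property B, arbitrarily close to any given nonzero finite
dimensional space. -/
theorem result (Y₀ : Type v) [NormedAddCommGroup Y₀] [NormedSpace ℝ Y₀] [FiniteDimensional ℝ Y₀]
    [Nontrivial Y₀] (ε : ℝ) (hε : 0 < ε) :
    ∃ (Y : Type) (_ : NormedAddCommGroup Y) (_ : NormedSpace ℝ Y) (S : Y₀ ≃L[ℝ] Y),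
      (∀ y, (1 - ε) * ‖y‖ ≤ ‖S y‖ ∧ ‖S y‖ ≤ (1 + ε) * ‖y‖) ∧ StrictConvexSpace ℝ Y ∧
      (∀ y : Y, y ≠ 0 → DifferentiableAt ℝ (fun z : Y => ‖z‖) y) ∧
      PropertyB.{u, 0} Y :=
  Pool.Agent.Helper18.PB2.main22 Y₀ ε hε

end Pool.Agent.Results.MP_b9cb57_an.SmoothConvexDense
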