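import Pool.Agent.Helper36.Sq.Main

/-!
Lindenstrauss' property B for finite-dimensional spaces, the square-Dini criterion.

Let `dim Y = n`. A point `p` of the unit sphere is square-Dini flat if there are a supporting functional
`w` and numbers `a k` with `∑ (a k)² < ∞` and `‖p + h‖ ≤ 1 + a k 4^(-k)` for all `h ∈ ker w` with
`‖h‖ ≤ 2^(-k)` (for instance `‖p + h‖ ≤ 1 + C ‖h‖² / log(1/‖h‖)^A` with `A > 1/2`). Suppose that almost
every point `p` of the unit sphere is square-Dini flat and that, if `n > 2`, the sphere contains a
neighbourhood of `p` in an affine subspace of dimension at least `n - 2` (with the same `w`). Then `Y` has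
property B. For `n = 2` the second condition is void. With `a k` bounded instead of square
summable this would contain the Euclidean plane, which is open.

Proof. By the contact theorem (as in `FlatAboveTwo`) one may assume that `T : X → Y`, `‖T‖ = 1`, has a
contact direction `p` with a quadratic gap, `p` good. Let `f = w ∘ T`, let `g` be the coordinate of `T` in
the one direction of `ker w` transversal to the flat piece, and `f_s = f + s g`. For an interval
`[m - h, m + h]` and a point `x` of the ball the energy is
`α = 2 h^(-2) ((‖f_(m-h)‖ + ‖f_(m+h)‖) / 2 - f_m x)`. Let `G(s)` be the infimum over the ball of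
`(chord of ‖f_s‖ at s) - f_s u + ψ(s) ‖u - x‖`, `ψ(s) = (h² - (s - m)²) / 2`. By the Hahn–Banach theorem one can
perturb `f`, `g` by `O(h²)`, `O(h)`, move `x`, and pass to the left half, the middle half or the right half of
the interval, so that the new energy plus the displacement of `x` is at most `8 h^(-2)` times the
corresponding second difference of `- G`, and the average of these three numbers with the weights
`1/4, 1/2, 1/4` is `2 h^(-2) G(m) ≤ α`: nothing is lost. So energy plus total displacement is a
supermartingale on a ternary tree. The windows `[j, j + l_j)` of the tree in which only left halves, or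
only right halves, are taken have probability `4^(-l_j)`; if the sum of these numbers is small the
method of conditional expectations gives a path without such windows, with bounded energy and
finite total displacement. The limits `F`, `G`, `z` satisfy `F (y - z) ≤ - c 4^(-j) 2^(-l_j)` for
`|G (y - z)| ∈ (2^(-j-1), 2^(-j)]`, `‖y‖ ≤ 1`; if `2^(-l_j)` is a large multiple of `a j` this gives a norm
attaining operator near `T`.
-/

namespace Pool.Agent.Results.MP_b9cb57_an.SquareDini

open Pool.Agent.Helper63.PropB MeasureTheory Measure Module

universe u v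

/-- The unit sphere of `Y` is square-Dini flat at `p`, and it contains a neighbourhood of `p` in an
affine subspace `p + E` of codimension at most two in `Y`. -/
def SquareDiniFlat {Y : Type v} [NormedAddCommGroup Y] [NormedSpace ℝ Y] (p : Y) : Prop :=
  ∃ w : Y →L[ℝ] ℝ, ‖w‖ ≤ 1 ∧ w p = 1 ∧
    (∃ (E : Submodule ℝ Y) (δ : ℝ), 0 < δ ∧ finrank ℝ Y ≤ finrank ℝ E + 2 ∧
      ∀ e ∈ E, w e = 0 ∧ (‖e‖ ≤ δ → ‖p + e‖ ≤ 1)) ∧
    ∃ a : ℕ → ℝ, Summable (fun k => a k ^ 2) ∧
      ∀ (k : ℕ) (h : Y), w h = 0 → ‖h‖ ≤ (1 / 2) ^ k → ‖p + h‖ ≤ 1 + a k * (1 / 4) ^ k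

/-- A finite-dimensional space whose unit sphere satisfies `SquareDiniFlat` at almost every point
has property B. -/
theorem result (Y : Type v) [NormedAddCommGroup Y] [NormedSpace ℝ Y] [FiniteDimensional ℝ Y]
    [MeasurableSpace Y] [BorelSpace Y]
    (h : μH[(finrank ℝ Y : ℝ) - 1] {p : Y | ‖p‖ = 1 ∧ ¬ SquareDiniFlat p} = 0) :
    PropertyB.{u, v} Y :=
  Pool.Agent.Helper36.Sq.main Y h

end Pool.Agent.Results.MP_b9cb57_an.SquareDini
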